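import Pool.Agent.helper73.SPV.Spec

/-! # Row sp:CYC (MP_a2a22c_al) -/

set_option autoImplicit false

namespace Pool.Agent.SPV

open Matrix Module Pool.Agent.SHL Pool.Agent.H48SL

theorem CYC_pow {R : Type} [Ring R] (A : R) (k : ℕ) :
    ∃ B : R, (1 + A) ^ k = 1 + (k : R) * A + A * A * B := by
  induction k with
  | zero => exact ⟨0, by simp⟩
  | succ k ih =>
    obtain ⟨B, hB⟩ := ih
    refine ⟨(k : R) + B * (1 + A), ?_⟩
    have hc : (k : R) * A = A * (k : R) := (Nat.cast_commute k A).eq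
    rw [pow_succ, hB]
    push_cast
    have e1 : (k : R) * A * A = A * A * (k : R) := by
      rw [hc, mul_assoc, hc, ← mul_assoc]
    have e2 : (1 + (k : R) * A + A * A * B) * (1 + A) =
        1 + ((k : R) * A + A) + ((k : R) * A * A + A * A * B * (1 + A)) := by
      noncomm_ring
    rw [e2, e1]
    noncomm_ring

theorem CYC_step (n p i : ℕ) (Y : Matrix (Fin n) (Fin n) ℤ) :
    ∃ Z : Matrix (Fin n) (Fin n) ℤ,
      (1 + ((p : ℤ) ^ (i + 1)) • Y) ^ p = 1 + ((p : ℤ) ^ (i + 2)) • Z := by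
  obtain ⟨B, hB⟩ := CYC_pow (((p : ℤ) ^ (i + 1)) • Y) p
  refine ⟨Y + ((p : ℤ) ^ i) • (Y * Y * B), ?_⟩
  rw [hB]
  have e1 : ((p : ℕ) : Matrix (Fin n) (Fin n) ℤ) * (((p : ℤ) ^ (i + 1)) • Y) =
      ((p : ℤ) ^ (i + 2)) • Y := by
    rw [mul_smul_comm, ← nsmul_eq_mul, ← natCast_zsmul, smul_smul]
    congr 1
  have e2 : (((p : ℤ) ^ (i + 1)) • Y) * (((p : ℤ) ^ (i + 1)) • Y) * B =
      ((p : ℤ) ^ (i + 2)) • (((p : ℤ) ^ i) • (Y * Y * B)) := by
    rw [smul_mul_smul_comm, smul_mul_assoc, smul_smul]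
    congr 1
    ring
  rw [e1, e2, smul_add, add_assoc]

theorem CYC_red (n q : ℕ) (X : SLn n) :
    red n q X = 1 ↔ ∃ Y : Matrix (Fin n) (Fin n) ℤ, (X : Matrix (Fin n) (Fin n) ℤ) = 1 + (q : ℤ) • Y := by
  constructor
  · intro h
    have h1 : ∀ a b, (q : ℤ) ∣ (X : Matrix (Fin n) (Fin n) ℤ) a b - (1 : Matrix (Fin n) (Fin n) ℤ) a b := by
      intro a b
      rw [← ZMod.intCast_zmod_eq_zero_iff_dvd]
      have h2 : ((red n q X : Matrix.SpecialLinearGroup (Fin n) (ZMod q)) :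
          Matrix (Fin n) (Fin n) (ZMod q)) a b = (1 : Matrix (Fin n) (Fin n) (ZMod q)) a b := by
        rw [h]; rfl
      have h3 : ((red n q X : Matrix.SpecialLinearGroup (Fin n) (ZMod q)) :
          Matrix (Fin n) (Fin n) (ZMod q)) a b = (((X : Matrix (Fin n) (Fin n) ℤ) a b : ℤ) : ZMod q) := rfl
      rw [h3] at h2
      push_cast
      rw [h2, Matrix.one_apply, Matrix.one_apply]
      split_ifs <;> simp
    choose Y hY using h1
    refine ⟨Matrix.of Y, ?_⟩
    ext a b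
    have := hY a b
    simp only [Matrix.add_apply, Matrix.smul_apply, Matrix.of_apply, smul_eq_mul]
    linarith
  · rintro ⟨Y, hY⟩
    apply Matrix.SpecialLinearGroup.ext
    intro a b
    have h3 : ((red n q X : Matrix.SpecialLinearGroup (Fin n) (ZMod q)) :
          Matrix (Fin n) (Fin n) (ZMod q)) a b = (((X : Matrix (Fin n) (Fin n) ℤ) a b : ℤ) : ZMod q) := rfl
    rw [h3, hY]
    simp only [Matrix.add_apply, Matrix.smul_apply, smul_eq_mul]
    push_cast
    rw [ZMod.natCast_self, zero_mul, add_zero]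
    show ((1 : Matrix (Fin n) (Fin n) ℤ) a b : ZMod q) = (1 : Matrix (Fin n) (Fin n) (ZMod q)) a b
    rw [Matrix.one_apply, Matrix.one_apply]
    split_ifs <;> simp

theorem CYC_main (n p m₀ : ℕ) (g : SLn n) (h0 : red n p (g ^ m₀) = 1) (i : ℕ) :
    red n (p ^ (i + 1)) (g ^ (m₀ * p ^ i)) = 1 := by
  rw [CYC_red]
  induction i with
  | zero =>
    obtain ⟨Y, hY⟩ := (CYC_red n p _).1 h0
    refine ⟨Y, ?_⟩
    simpa using hY
  | succ i ih =>
    obtain ⟨Y, hY⟩ := ih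
    obtain ⟨Z, hZ⟩ := CYC_step n p i Y
    refine ⟨Z, ?_⟩
    have e1 : g ^ (m₀ * p ^ (i + 1)) = (g ^ (m₀ * p ^ i)) ^ p := by
      rw [← pow_mul]
      congr 1
      ring
    rw [e1, Matrix.SpecialLinearGroup.coe_pow, hY]
    push_cast
    rw [hZ]

theorem CYC : CYC_stmt := by
  intro n p hp g
  have : Fact p.Prime := ⟨hp⟩
  have : ∀ j : ℕ, NeZero (p ^ j) := fun j => ⟨pow_ne_zero _ hp.ne_zero⟩
  have hfin : Finite (Matrix.SpecialLinearGroup (Fin n) (ZMod p)) := by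
    unfold Matrix.SpecialLinearGroup
    infer_instance
  refine ⟨orderOf (red n p g), fun j => ?_⟩
  have hpos : 0 < orderOf (red n p g) := orderOf_pos _
  have h0 : red n p (g ^ orderOf (red n p g)) = 1 := by
    rw [map_pow, pow_orderOf_eq_one]
  have h1 := CYC_main n p _ g h0 j
  rw [map_pow] at h1
  have hset : (Set.range fun m : ℤ => red n (p ^ (j + 1)) (g ^ m)) =
      (Subgroup.zpowers (red n (p ^ (j + 1)) g) : Set _) := by
    ext x
    simp only [Set.mem_range, SetLike.mem_coe, Subgroup.mem_zpowers_iff, map_zpow]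
  rw [hset]
  have h2 : (Subgroup.zpowers (red n (p ^ (j + 1)) g) :
      Set (Matrix.SpecialLinearGroup (Fin n) (ZMod (p ^ (j + 1))))).ncard =
      orderOf (red n (p ^ (j + 1)) g) := by
    rw [← Nat.card_zpowers]
    rfl
  rw [h2]
  exact orderOf_le_of_pow_eq_one (Nat.mul_pos hpos (pow_pos hp.pos _)) h1

end Pool.Agent.SPV
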